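import Pool.Agent.Lib.MP_20855c_co.Match.Fr
import Pool.Agent.Lib.MP_20855c_co.Match.Weights

/-!
Two families with intersections of size two: the case in which every intersection lies in a clique of
intersections whose number of points is at least the number of points of the union of all the
intersections, minus `a + b - 4`.
-/

set_option autoImplicit false

namespace Pool.Agent.Results.MP_20855c_co.CliqueCores

open Finset Pool.Agent.Lib.MP_20855c_co Pool.Agent.Lib.MP_20855c_co.Match
  Pool.Agent.Lib.MP_20855c_co.Star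

/-- An `(a,b)`-system: `|A i| = a`, `|B i| = b`, `|A i ∩ B i| = 2`, and `A i ∩ B j` is not contained
in any `A k ∩ B k` when `i ≠ j`. -/
structure IsSystem {ι α : Type*} [DecidableEq α] (a b : ℕ) (A B : ι → Finset α) : Prop where
  card_left : ∀ i, (A i).card = a
  card_right : ∀ i, (B i).card = b
  card_inter : ∀ i, (A i ∩ B i).card = 2
  not_subset : ∀ i j k, i ≠ j → ¬ A i ∩ B j ⊆ A k ∩ B k

/-- `S(a,b) = ∑_{i=2}^{a} 2^(i-2) * C(a+b-2i, a-i)`. -/
def S (a b : ℕ) : ℕ := ∑ i ∈ Icc 2 a, 2 ^ (i - 2) * (a + b - 2 * i).choose (a - i)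

/-- The union of all the intersections `A k ∩ B k`. -/
def core {ι α : Type*} [Fintype ι] [DecidableEq α] (A B : ι → Finset α) : Finset α :=
  univ.biUnion fun k => A k ∩ B k

lemma S_eq (a b : ℕ) (ha : 2 ≤ a) :
    S a b = ∑ j ∈ range (a - 1), 2 ^ j * (a + b - 4 - 2 * j).choose (a - 2 - j) := by
  unfold S
  have h : Icc 2 a = (range (a - 1)).image (fun j => j + 2) := by
    ext i
    simp only [mem_Icc, mem_image, mem_range]
    constructor
    · rintro ⟨h1, h2⟩
      exact ⟨i - 2, by omega, by omega⟩
    · rintro ⟨j, h1, rfl⟩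
      omega
  rw [h, sum_image (by intro i _ j _ hij; simpa using hij)]
  apply sum_congr rfl
  intro j _
  rw [show j + 2 - 2 = j by omega, show a + b - 2 * (j + 2) = a + b - 4 - 2 * j by omega,
    show a - (j + 2) = a - 2 - j by omega]

theorem main (k b r : ℕ) (hab : k + 2 ≤ b) {ι α : Type*} [Fintype ι] [DecidableEq α]
    (A B : ι → Finset α) (h : IsSystem (k + 2) b A B)
    (W : Finset α) (hW : W.card = k + b + r) (hcW : ∀ i, A i ∩ B i ⊆ W)
    (hU : ∀ i, ∃ U ⊆ W, A i ∩ B i ⊆ U ∧ U.card = r + 2 ∧
      ∀ u ∈ U, ∀ v ∈ U, u ≠ v → ∃ l, A l ∩ B l = {u, v}) :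
    Fintype.card ι ≤ ∑ j ∈ range (k + 1), 2 ^ j * (k + b - 2 - 2 * j).choose (k - j) := by
  classical
  have hZ : ∀ i, (A i ∪ B i).card = k + b := by
    intro i
    have h1 := card_union_add_card_inter (A i) (B i)
    rw [h.card_left, h.card_right, h.card_inter] at h1
    omega
  have hout : ∀ i, (A i \ W).card + (B i \ W).card = ((A i ∪ B i) \ W).card := by
    intro i
    rw [union_sdiff_distrib, card_union_of_disjoint]
    rw [Finset.disjoint_left]
    intro u hu hu'
    rw [mem_sdiff] at hu hu'
    exact hu.2 (hcW i (mem_inter.2 ⟨hu.1, hu'.1⟩))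
  have hTex : ∀ i, ∃ T ⊆ W \ (A i ∪ B i), T.card = (A i \ W).card + (B i \ W).card := by
    intro i
    apply exists_subset_card_eq
    rw [hout]
    have e1 := card_sdiff_add_card_inter (A i ∪ B i) W
    have e2 := card_sdiff_add_card_inter W (A i ∪ B i)
    rw [inter_comm W] at e2
    rw [hZ] at e1
    omega
  choose T hT1 hT2 using hTex
  set G : Finset (Finset α) := univ.image fun i => A i ∩ B i with hG
  have hG2 : ∀ e ∈ G, e.card = 2 := by
    intro e he
    obtain ⟨l, _, rfl⟩ := mem_image.1 he
    exact h.card_inter l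
  have hGW : ∀ e ∈ G, e ⊆ W := by
    intro e he
    obtain ⟨l, _, rfl⟩ := mem_image.1 he
    exact hcW l
  have hGm : ∀ i, A i ∩ B i ∈ G := fun i => mem_image_of_mem _ (mem_univ i)
  have hcW' : Fintype.card W = k + b + r := by rw [Fintype.card_coe, hW]
  obtain ⟨X1, hX1, hmds⟩ := exists_mds (K := Fr) (V := W) r
    (by omega)
  have hX1' : Module.finrank (Fr) X1 = k + b := by omega
  obtain ⟨t, ht, h01⟩ := clique_weights (K := Fr) (V := W)
    (G.image fun e => e.subtype (· ∈ W))
    (by
      intro e he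
      obtain ⟨e', he', rfl⟩ := mem_image.1 he
      rw [card_subtype, filter_true_of_mem (fun u hu => hGW e' he' hu)]
      exact hG2 e' he')
    r X1 hX1 hmds
    (by
      intro e he
      obtain ⟨e', he', rfl⟩ := mem_image.1 he
      obtain ⟨i, _, rfl⟩ := mem_image.1 he'
      obtain ⟨U, hUW, hiU, hUc, hUp⟩ := hU i
      refine ⟨U.subtype (· ∈ W), ?_, ?_, ?_⟩
      · intro u hu
        rw [mem_subtype] at hu ⊢
        exact hiU hu
      · rw [card_subtype, filter_true_of_mem (fun u hu => hUW hu)]
        exact hUc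
      · intro u hu v hv huv
        rw [mem_subtype] at hu hv
        obtain ⟨l, hl⟩ := hUp u hu v hv (fun h' => huv (Subtype.ext h'))
        refine mem_image.2 ⟨A l ∩ B l, hGm l, ?_⟩
        ext w
        rw [mem_subtype, hl]
        simp only [mem_insert, mem_singleton, Subtype.ext_iff])
  refine abs_hybrid (F := Fr) k b hab A B h.card_left h.card_right
    h.card_inter G hG2 hGm ?_ W hGW T hT1 hT2 t ?_ X1 hX1' h01 ?_
  · intro i j hij e he
    obtain ⟨s, _, rfl⟩ := mem_image.1 he
    exact h.not_subset i j s hij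
  · intro e he
    exact ht _ (mem_image_of_mem _ he)
  · intro i f hf hf0
    apply hmds f hf ((W.filter fun v => v ∉ (A i ∪ B i) ∪ T i).subtype (· ∈ W))
    · rw [card_subtype, filter_true_of_mem (fun u hu => (mem_filter.1 hu).1)]
      have e2 : (W.filter fun v => v ∉ (A i ∪ B i) ∪ T i) = (W \ (A i ∪ B i)) \ T i := by
        ext v
        simp only [mem_filter, mem_sdiff, mem_union, not_or]
        tauto
      rw [e2, card_sdiff_of_subset (hT1 i), hT2, hout]
      have e3 := card_sdiff_add_card_inter (A i ∪ B i) W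
      have e4 := card_sdiff_add_card_inter W (A i ∪ B i)
      rw [inter_comm W] at e4
      rw [hZ] at e3
      omega
    · intro v hv
      apply hf0
      by_contra hv'
      exact hv (mem_subtype.2 (mem_filter.2 ⟨v.2, hv'⟩))

/-- Let `2 ≤ a ≤ b` and let `(A i, B i)` be an `(a,b)`-system of finite sets of elements of any
type, indexed by a finite type `ι`. Let `X` be the union of all the intersections `A k ∩ B k`.
Assume that every intersection `A i ∩ B i` is contained in a set `U` with at least
`|X| - (a + b - 4)` points such that every pair of points of `U` is an intersection `A l ∩ B l`.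
Then `|ι| ≤ S(a,b)`. -/
theorem result (a b : ℕ) (ha : 2 ≤ a) (hab : a ≤ b) {ι α : Type*} [Fintype ι] [DecidableEq α]
    (A B : ι → Finset α) (h : IsSystem a b A B)
    (hU : ∀ i, ∃ U : Finset α, A i ∩ B i ⊆ U ∧ (core A B).card ≤ U.card + (a + b - 4) ∧
      ∀ u ∈ U, ∀ v ∈ U, u ≠ v → ∃ l, A l ∩ B l = {u, v}) :
    Fintype.card ι ≤ S a b := by
  classical
  obtain ⟨k, rfl⟩ : ∃ k, a = k + 2 := ⟨a - 2, by omega⟩
  have hS : S (k + 2) b = ∑ j ∈ range (k + 1), 2 ^ j * (k + b - 2 - 2 * j).choose (k - j) := by
    rw [S_eq _ _ ha, show k + 2 - 1 = k + 1 by omega, show k + 2 - 2 = k by omega,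
      show k + 2 + b - 4 = k + b - 2 by omega]
  rw [hS]
  rcases isEmpty_or_nonempty ι with hI | ⟨⟨i0⟩⟩
  · rw [Fintype.card_eq_zero]
    exact Nat.zero_le _
  have hZ : ∀ i, (A i ∪ B i).card = k + b := by
    intro i
    have h1 := card_union_add_card_inter (A i) (B i)
    rw [h.card_left, h.card_right, h.card_inter] at h1
    omega
  set X := core A B with hX
  have hcX : ∀ i, A i ∩ B i ⊆ X := by
    intro i
    rw [hX]
    unfold core
    exact subset_biUnion_of_mem (fun k => A k ∩ B k) (mem_univ i)
  by_cases hXc : k + b ≤ X.card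
  · -- many points in the intersections
    apply main k b (X.card - (k + b)) hab A B h X (by omega) hcX
    intro i
    obtain ⟨U, hiU, hUc, hUp⟩ := hU i
    obtain ⟨U', h1, h2, h3⟩ := exists_subsuperset_card_eq hiU
      (n := X.card - (k + b) + 2) (by rw [h.card_inter]; omega) (by omega)
    refine ⟨U', ?_, h1, h3, fun u hu v hv huv => hUp u (h2 hu) v (h2 hv) huv⟩
    intro u hu
    have h4 : 1 < U'.card := by omega
    obtain ⟨v, hv, hvu⟩ := exists_mem_ne h4 u
    obtain ⟨l, hl⟩ := hUp u (h2 hu) v (h2 hv) (Ne.symm hvu)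
    apply hcX l
    rw [hl]
    exact mem_insert_self _ _
  · -- few points in the intersections
    have h1 : k + b ≤ (X ∪ (A i0 ∪ B i0)).card := by
      rw [← hZ i0]
      exact card_le_card subset_union_right
    obtain ⟨W, hXW, _, hWc⟩ := exists_subsuperset_card_eq
      (subset_union_left : X ⊆ X ∪ (A i0 ∪ B i0)) (by omega) h1
    apply main k b 0 hab A B h W (by omega) (fun i => (hcX i).trans hXW)
    intro i
    refine ⟨A i ∩ B i, (hcX i).trans hXW, Subset.refl _, h.card_inter i, ?_⟩
    intro u hu v hv huv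
    refine ⟨i, ?_⟩
    symm
    apply eq_of_subset_of_card_le
    · intro w hw
      rw [mem_insert, mem_singleton] at hw
      rcases hw with rfl | rfl
      · exact hu
      · exact hv
    · rw [h.card_inter, card_pair huv]

end Pool.Agent.Results.MP_20855c_co.CliqueCores
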