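import Pool.Agent.Lib.MP_20855c_co.LB.Fin
import Pool.Agent.Lib.MP_20855c_co.LB.Num

/-!
Two families with intersections of size two: the conjectured bound `|I| ≤ S(a,b)` holds for every
`(a,b)`-system with `a ≥ 2` and `b ≥ (100 a) ^ ((a + 1) ^ 3)`.
-/

set_option autoImplicit false

namespace Pool.Agent.Results.MP_20855c_co.LargeB

open Finset Pool.Agent.Lib.MP_20855c_co.LB

/-- An `(a,b)`-system: `|A i| = a`, `|B i| = b`, `|A i ∩ B i| = 2`, and `A i ∩ B j` is not contained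
in any `A k ∩ B k` when `i ≠ j`. -/
structure IsSystem {ι α : Type} [DecidableEq α] (a b : ℕ) (A B : ι → Finset α) : Prop where
  card_left : ∀ i, (A i).card = a
  card_right : ∀ i, (B i).card = b
  card_inter : ∀ i, (A i ∩ B i).card = 2
  not_subset : ∀ i j k, i ≠ j → ¬ A i ∩ B j ⊆ A k ∩ B k

/-- `S(a,b) = ∑_{i=2}^{a} 2^(i-2) * C(a+b-2i, a-i)`. -/
def S (a b : ℕ) : ℕ := ∑ i ∈ Icc 2 a, 2 ^ (i - 2) * (a + b - 2 * i).choose (a - i)

lemma S_eq (k b : ℕ) : S (k + 2) b = ∑ i ∈ range (k + 1), 2 ^ i * (k + b - 2 - 2 * i).choose (k - i) := by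
  unfold S
  have h : Icc 2 (k + 2) = (range (k + 1)).image (fun j => j + 2) := by
    ext i
    simp only [mem_Icc, mem_image, mem_range]
    constructor
    · rintro ⟨h1, h2⟩
      exact ⟨i - 2, by omega, by omega⟩
    · rintro ⟨j, h1, rfl⟩
      omega
  rw [h, sum_image (by intro i _ j _ hij; simpa using hij)]
  apply sum_congr rfl
  intro j hj
  rw [mem_range] at hj
  rw [show j + 2 - 2 = j by omega, show k + 2 + b - 2 * (j + 2) = k + b - 2 - 2 * j by omega,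
    show k + 2 - (j + 2) = k - j by omega]

/-- For every `a ≥ 2` and every `b ≥ (100 a) ^ ((a + 1) ^ 3)` every `(a,b)`-system `(A i, B i)`
of finite sets, indexed by a finite type `ι`, satisfies `|ι| ≤ S(a,b)`. -/
theorem result (a : ℕ) (ha : 2 ≤ a) (b : ℕ) (hb : (100 * a) ^ ((a + 1) ^ 3) ≤ b) (ι α : Type) [Fintype ι]
    [DecidableEq α] (A B : ι → Finset α) (h : IsSystem a b A B) : Fintype.card ι ≤ S a b := by
  obtain ⟨k, rfl⟩ : ∃ k, a = k + 2 := ⟨a - 2, by omega⟩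
  have hs : IsSys k b A B := ⟨h.card_left, h.card_right, h.card_inter, h.not_subset⟩
  have hB : Boll k b (Dd A B) B := ⟨card_Dd hs, h.card_right, fun i => Dd_disj_B i, fun i j hij => cross hs hij⟩
  -- powers of `100 a` below `b`
  have hpow : ∀ e ≤ (k + 3) ^ 3, (100 * (k + 2)) ^ e ≤ b := by
    intro e he
    refine le_trans (Nat.pow_le_pow_right (by omega) ?_) hb
    exact he
  rcases Nat.lt_or_ge k 2 with hk | hk
  · have hb3 : 3 ≤ b := by
      have h1 := hpow 1 (Nat.one_le_pow _ _ (by omega))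
      rw [pow_one] at h1
      omega
    refine (boll_card hB).trans (le_of_eq ?_)
    rw [S_eq]
    obtain ⟨b, rfl⟩ : ∃ c, b = c + 3 := ⟨b - 3, by omega⟩
    rcases Nat.lt_or_ge k 1 with hk1 | hk1
    · have hk0 : k = 0 := by omega
      subst hk0
      simp
    · have hk0 : k = 1 := by omega
      subst hk0
      rw [sum_range_succ, sum_range_one]
      rw [show 1 + (b + 3) - 2 - 2 * 0 = b + 2 by omega]
      simp
      omega
  · obtain ⟨r, rfl⟩ : ∃ r, k = r + 2 := ⟨k - 2, by omega⟩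
    obtain ⟨Z, hZ⟩ : ∃ Z : ℝ, Z = 100 * (r + 2 + 2 : ℕ) := ⟨_, rfl⟩
    obtain ⟨ε, hε⟩ : ∃ ε : ℝ, ε = 1 / Z ^ (r + 10) := ⟨_, rfl⟩
    obtain ⟨δ, hδ⟩ : ∃ δ : ℝ, δ = (ε / 2) ^ (r + 1) / ((r + 1).factorial : ℝ) := ⟨_, rfl⟩
    obtain ⟨K, hK⟩ : ∃ K : ℕ, K = 16 ^ (r + 3) * (r + 2) := ⟨_, rfl⟩
    obtain ⟨θ, hθ⟩ : ∃ θ : ℝ, θ = δ / (32 * ((r : ℝ) + 2) ^ 2) := ⟨_, rfl⟩
    obtain ⟨W, hW⟩ : ∃ W : ℝ, W = 4 * (K * ((r : ℝ) + 2)) * 2 ^ r := ⟨_, rfl⟩
    have hbZ : ∀ e ≤ (r + 5) ^ 3, Z ^ e ≤ (b : ℝ) := by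
      intro e he
      have h1 := hpow e he
      have h2 : ((((100 * (r + 2 + 2)) ^ e : ℕ)) : ℝ) ≤ (b : ℝ) := by exact_mod_cast h1
      rw [hZ]
      refine le_trans (le_of_eq ?_) h2
      push_cast
      ring
    obtain ⟨n1, n2, n3, n4, n5, n6, n7, n8⟩ := nums r Z ε δ θ W K hZ hε hδ hK hθ hW b hbZ
    have hN3 : (100 * (r + 2 + 2)) ^ 5 + 2 * (r + 2) + 5 ≤ b := by
      have h1 := hpow 6 (by
        have h2 : 5 ^ 3 ≤ (r + 2 + 3) ^ 3 := Nat.pow_le_pow_left (by omega) _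
        omega)
      have h3 : (100 * (r + 2 + 2)) ^ 5 * 2 ≤ (100 * (r + 2 + 2)) ^ 6 := by
        rw [pow_succ _ 5]
        exact Nat.mul_le_mul_left _ (by omega)
      have h4 : (100 * (r + 2 + 2)) ^ 1 ≤ (100 * (r + 2 + 2)) ^ 5 := Nat.pow_le_pow_right (by omega) (by omega)
      rw [pow_one] at h4
      omega
    have hbr : r + 4 ≤ b := by
      have h4 : (100 * (r + 2 + 2)) ^ 1 ≤ (100 * (r + 2 + 2)) ^ 5 := Nat.pow_le_pow_right (by omega) (by omega)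
      rw [pow_one] at h4
      omega
    rw [S_eq, ← gct_sum]
    by_contra hcon
    push Not at hcon
    have hge := gct_ge (r + 2 + b) r (by omega)
    have h1 : (r + 2 + b).choose (r + 2) ≤ Fintype.card ι + (r + 2 + b).choose r := by
      have h2 : gct (r + 2 + b) (r + 2) (r + 3) = gct (r + 2 + b) (r + 2) (r + 2 + 1) := rfl
      omega
    obtain ⟨Y, hY, hYm⟩ := st1 r δ n1 n2 K hK θ hθ b (by exact_mod_cast n3) (by rw [hW] at n4; exact n4)
      (by rw [hW] at n5; exact n5) n6 ι α (Dd A B) B hB h1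
    have h3 := st2 r ε (by rw [hε, hZ]) δ hδ b n7 n8 hN3 ι α A B Y hs hY hYm
    omega

end Pool.Agent.Results.MP_20855c_co.LargeB
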