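import Pool.Agent.Lib.MP_20855c_co.Match.Hybrid

/-!
Two families with intersections of size two: a bound for the members `i` for which `A i ∪ B i`
contains, up to few points, as many pairwise disjoint intersections `A k ∩ B k` as possible.
-/

set_option autoImplicit false

namespace Pool.Agent.Results.MP_20855c_co.Matching

open Finset Pool.Agent.Lib.MP_20855c_co Pool.Agent.Lib.MP_20855c_co.Match
  Pool.Agent.Lib.MP_20855c_co.Star

/-- An `(a,b)`-system: `|A i| = a`, `|B i| = b`, `|A i ∩ B i| = 2`, and `A i ∩ B j` is not contained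
in any `A k ∩ B k` when `i ≠ j`. -/
structure IsSystem {ι α : Type*} [DecidableEq α] (a b : ℕ) (A B : ι → Finset α) : Prop where
  card_left : ∀ i, (A i).card = a
  card_right : ∀ i, (B i).card = b
  card_inter : ∀ i, (A i ∩ B i).card = 2
  not_subset : ∀ i j k, i ≠ j → ¬ A i ∩ B j ⊆ A k ∩ B k

/-- `S(a,b) = ∑_{i=2}^{a} 2^(i-2) * C(a+b-2i, a-i)`. -/
def S (a b : ℕ) : ℕ := ∑ i ∈ Icc 2 a, 2 ^ (i - 2) * (a + b - 2 * i).choose (a - i)

/-- The sum of the first `ν` terms of `S(a,b)`. -/
def Sn (ν a b : ℕ) : ℕ :=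
  ∑ i ∈ Icc 2 (min a (ν + 1)), 2 ^ (i - 2) * (a + b - 2 * i).choose (a - i)

/-- The sets in `M` are pairwise disjoint. -/
def PD {α : Type*} (M : Finset (Finset α)) : Prop := ∀ e ∈ M, ∀ f ∈ M, e ≠ f → Disjoint e f

/-- `G` contains `ν` pairwise disjoint sets such that the number of points of their union outside `Z`
is at most the number of points of `Z` outside the union of all sets of `G`. -/
def Good {α : Type*} [DecidableEq α] (G : Finset (Finset α)) (ν : ℕ) (Z : Finset α) : Prop :=
  ∃ M ⊆ G, PD M ∧ M.card = ν ∧ ((M.biUnion id) \ Z).card ≤ (Z \ G.biUnion id).card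

lemma Sn_eq (ν a b : ℕ) (ha : 2 ≤ a) :
    Sn ν a b = ∑ j ∈ range (min ν (a - 1)), 2 ^ j * (a + b - 4 - 2 * j).choose (a - 2 - j) := by
  unfold Sn
  have h : Icc 2 (min a (ν + 1)) = (range (min ν (a - 1))).image (fun j => j + 2) := by
    ext i
    simp only [mem_Icc, mem_image, mem_range]
    constructor
    · rintro ⟨h1, h2⟩
      exact ⟨i - 2, by omega, by omega⟩
    · rintro ⟨j, h1, rfl⟩
      omega
  rw [h, sum_image (by intro i _ j _ hij; simpa using hij)]
  apply sum_congr rfl
  intro j _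
  rw [show j + 2 - 2 = j by omega, show a + b - 2 * (j + 2) = a + b - 4 - 2 * j by omega,
    show a - (j + 2) = a - 2 - j by omega]

lemma Sn_le_S (ν a b : ℕ) : Sn ν a b ≤ S a b := by
  unfold Sn S
  apply sum_le_sum_of_subset
  intro i hi
  rw [mem_Icc] at hi ⊢
  omega

theorem count (a b : ℕ) (ha : 2 ≤ a) (hab : a ≤ b) {ι α : Type*} [Fintype ι] [DecidableEq α]
    (A B : ι → Finset α) (h : IsSystem a b A B) (G : Finset (Finset α)) (ν : ℕ)
    (hG : ∀ e ∈ G, ∃ k, e = A k ∩ B k) (hν : ∀ M ⊆ G, PD M → M.card ≤ ν) :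
    Nat.card {i : ι // A i ∩ B i ∈ G ∧ Good G ν (A i ∪ B i)} ≤ Sn ν a b := by
  classical
  obtain ⟨k, rfl⟩ : ∃ k, a = k + 2 := ⟨a - 2, by omega⟩
  rw [Nat.card_eq_fintype_card, Sn_eq _ _ _ ha]
  have hG2 : ∀ e ∈ G, e.card = 2 := by
    intro e he
    obtain ⟨k, rfl⟩ := hG e he
    exact h.card_inter k
  rcases isEmpty_or_nonempty {i : ι // A i ∩ B i ∈ G ∧ Good G ν (A i ∪ B i)} with hI | ⟨⟨i0⟩⟩
  · rw [Fintype.card_eq_zero]
    exact Nat.zero_le _
  have hZ : ∀ i, (A i ∪ B i).card = k + b := by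
    intro i
    have h1 := card_union_add_card_inter (A i) (B i)
    rw [h.card_left, h.card_right, h.card_inter] at h1
    omega
  set X := G.biUnion id with hX
  have hGX : ∀ e ∈ G, e ⊆ X := fun e he u hu => mem_biUnion.2 ⟨e, he, hu⟩
  -- the number of points outside a set which contains the intersection
  have hout : ∀ (W : Finset α) (i : ι), A i ∩ B i ⊆ W →
      (A i \ W).card + (B i \ W).card = ((A i ∪ B i) \ W).card := by
    intro W i hi
    rw [union_sdiff_distrib, card_union_of_disjoint]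
    rw [Finset.disjoint_left]
    intro u hu hu'
    rw [mem_sdiff] at hu hu'
    exact hu.2 (hi (mem_inter.2 ⟨hu.1, hu'.1⟩))
  -- the final step
  have key : ∀ W : Finset α, X ⊆ W → (∀ i : {i : ι // A i ∩ B i ∈ G ∧ Good G ν (A i ∪ B i)},
      ∃ T ⊆ W \ (A i.1 ∪ B i.1), T.card = ((A i.1 ∪ B i.1) \ W).card ∧
        ∃ M ⊆ G, PD M ∧ M.card = ν ∧ M.biUnion id ⊆ (A i.1 ∪ B i.1) ∪ T) →
      Fintype.card {i : ι // A i ∩ B i ∈ G ∧ Good G ν (A i ∪ B i)} ≤
        ∑ j ∈ range (min ν (k + 2 - 1)), 2 ^ j * (k + 2 + b - 4 - 2 * j).choose (k + 2 - 2 - j) := by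
    intro W hXW hT
    choose T hT1 hT2 hT3 using hT
    have h1 := hybrid (ι := {i : ι // A i ∩ B i ∈ G ∧ Good G ν (A i ∪ B i)}) k b hab
      (fun i => A i.1) (fun i => B i.1) (fun i => h.card_left i.1) (fun i => h.card_right i.1)
      (fun i => h.card_inter i.1) G hG2 (fun i => i.2.1)
      (by
        intro i j hij e he
        obtain ⟨s, rfl⟩ := hG e he
        exact h.not_subset i.1 j.1 s (fun h' => hij (Subtype.ext h')))
      ν (fun M hM hMM => hν M hM hMM.2) W (fun e he => (hGX e he).trans hXW) T hT1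
      (fun i => by
        rw [hT2 i]
        exact (hout W i.1 ((hGX _ i.2.1).trans hXW)).symm)
      (by
        intro i
        obtain ⟨M, hMG, hMp, hMν, hMu⟩ := hT3 i
        exact ⟨M, hMG, ⟨fun e he => hG2 e (hMG he), hMp⟩, hMν, hMu⟩)
    rwa [show k + 2 - 1 = k + 1 by omega, show k + 2 - 2 = k by omega,
      show k + 2 + b - 4 = k + b - 2 by omega]
  by_cases hXc : k + b ≤ X.card
  · -- many points in the intersections
    apply key X (Subset.refl _)
    rintro ⟨i, hi1, M, hMG, hMp, hMν, hMc⟩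
    have h1 : (M.biUnion id) \ (A i ∪ B i) ⊆ X \ (A i ∪ B i) := by
      intro u hu
      rw [mem_sdiff] at hu ⊢
      refine ⟨?_, hu.2⟩
      obtain ⟨e, he, hue⟩ := mem_biUnion.1 hu.1
      exact hGX e (hMG he) hue
    have h2 : ((A i ∪ B i) \ X).card ≤ (X \ (A i ∪ B i)).card := by
      have e1 := card_sdiff_add_card_inter (A i ∪ B i) X
      have e2 := card_sdiff_add_card_inter X (A i ∪ B i)
      rw [inter_comm X] at e2
      rw [hZ] at e1
      omega
    obtain ⟨T, hT1, hT2, hT3⟩ := exists_subsuperset_card_eq h1 hMc h2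
    refine ⟨T, hT2, hT3, M, hMG, hMp, hMν, ?_⟩
    intro u hu
    by_cases hu' : u ∈ A i ∪ B i
    · exact mem_union_left _ hu'
    · exact mem_union_right _ (hT1 (mem_sdiff.2 ⟨hu, hu'⟩))
  · -- few points in the intersections
    have h1 : k + b ≤ (X ∪ (A i0.1 ∪ B i0.1)).card := by
      rw [← hZ i0.1]
      exact card_le_card subset_union_right
    obtain ⟨W, hXW, _, hWc⟩ := exists_subsuperset_card_eq
      (subset_union_left : X ⊆ X ∪ (A i0.1 ∪ B i0.1)) (by omega) h1
    apply key W hXW
    rintro ⟨i, hi1, M, hMG, hMp, hMν, hMc⟩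
    refine ⟨W \ (A i ∪ B i), Subset.refl _, ?_, M, hMG, hMp, hMν, ?_⟩
    · have e1 := card_sdiff_add_card_inter (A i ∪ B i) W
      have e2 := card_sdiff_add_card_inter W (A i ∪ B i)
      rw [inter_comm W] at e2
      rw [hZ] at e1
      change (W \ (A i ∪ B i)).card = ((A i ∪ B i) \ W).card
      omega
    · intro u hu
      by_cases hu' : u ∈ A i ∪ B i
      · exact mem_union_left _ hu'
      · apply mem_union_right
        rw [mem_sdiff]
        refine ⟨hXW ?_, hu'⟩
        obtain ⟨e, he, hue⟩ := mem_biUnion.1 hu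
        exact hGX e (hMG he) hue

/-- The union of all the intersections `A k ∩ B k`. -/
def core {ι α : Type*} [Fintype ι] [DecidableEq α] (A B : ι → Finset α) : Finset α :=
  univ.biUnion fun k => A k ∩ B k

/-- The set of all the intersections `A k ∩ B k`. -/
def cores {ι α : Type*} [Fintype ι] [DecidableEq α] (A B : ι → Finset α) : Finset (Finset α) :=
  univ.image fun k => A k ∩ B k

theorem whole (a b : ℕ) (ha : 2 ≤ a) (hab : a ≤ b) {ι α : Type*} [Fintype ι] [DecidableEq α]
    (A B : ι → Finset α) (h : IsSystem a b A B) (ν : ℕ)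
    (hν : ∀ M ⊆ cores A B, PD M → M.card ≤ ν)
    (hall : ∀ i, Good (cores A B) ν (A i ∪ B i)) : Fintype.card ι ≤ S a b := by
  have hmem : ∀ i, A i ∩ B i ∈ cores A B := fun i => mem_image_of_mem _ (mem_univ i)
  have hG : ∀ e ∈ cores A B, ∃ k, e = A k ∩ B k := by
    intro e he
    obtain ⟨k, _, rfl⟩ := mem_image.1 he
    exact ⟨k, rfl⟩
  refine le_trans ?_ ((count a b ha hab A B h (cores A B) ν hG hν).trans (Sn_le_S ν a b))
  rw [← Nat.card_eq_fintype_card]
  exact Nat.card_le_card_of_injective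
    (fun i : ι => (⟨i, hmem i, hall i⟩ :
      {i : ι // A i ∩ B i ∈ cores A B ∧ Good (cores A B) ν (A i ∪ B i)}))
    (fun i j hij => congrArg Subtype.val hij)

theorem small (a b : ℕ) (ha : 2 ≤ a) (hab : a ≤ b) {ι α : Type*} [Fintype ι] [DecidableEq α]
    (A B : ι → Finset α) (h : IsSystem a b A B) (hX : (core A B).card ≤ a + b - 2) :
    Fintype.card ι ≤ S a b := by
  classical
  obtain ⟨M, hM, hmax⟩ := exists_max_image ((cores A B).powerset.filter fun M => PD M) card
    ⟨∅, mem_filter.2 ⟨mem_powerset.2 (empty_subset _), by intro e he; simp at he⟩⟩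
  rw [mem_filter, mem_powerset] at hM
  apply whole a b ha hab A B h M.card
  · intro M' hM' hp
    exact hmax M' (mem_filter.2 ⟨mem_powerset.2 hM', hp⟩)
  · intro i
    refine ⟨M, hM.1, hM.2, rfl, ?_⟩
    have hXe : (cores A B).biUnion id = core A B := by
      unfold cores core
      rw [image_biUnion]
      rfl
    rw [hXe]
    have h1 : (M.biUnion id) \ (A i ∪ B i) ⊆ core A B \ (A i ∪ B i) := by
      rw [← hXe]
      exact sdiff_subset_sdiff (biUnion_subset_biUnion_of_subset_left _ hM.1) (Subset.refl _)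
    have h2 := card_le_card h1
    have h3 := card_union_add_card_inter (A i) (B i)
    rw [h.card_left, h.card_right, h.card_inter] at h3
    have e1 := card_sdiff_add_card_inter (A i ∪ B i) (core A B)
    have e2 := card_sdiff_add_card_inter (core A B) (A i ∪ B i)
    rw [inter_comm (core A B)] at e2
    omega

theorem degree (a b : ℕ) (ha : 2 ≤ a) (hab : a ≤ b) {ι α : Type*} [Fintype ι] [DecidableEq α]
    (A B : ι → Finset α) (h : IsSystem a b A B) (x : α) :
    Nat.card {i : ι // x ∈ A i ∩ B i} ≤ (a + b - 4).choose (a - 2) := by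
  classical
  set G : Finset (Finset α) := (univ.filter fun k => x ∈ A k ∩ B k).image fun k => A k ∩ B k
    with hG
  have hGx : ∀ e ∈ G, x ∈ e := by
    intro e he
    obtain ⟨k, hk, rfl⟩ := mem_image.1 he
    exact (mem_filter.1 hk).2
  have h1 := count a b ha hab A B h G 1
    (by
      intro e he
      obtain ⟨k, _, rfl⟩ := mem_image.1 he
      exact ⟨k, rfl⟩)
    (by
      intro M hMG hMp
      rw [card_le_one]
      intro e he f hf
      by_contra hef
      exact Finset.disjoint_left.1 (hMp e he f hf hef) (hGx e (hMG he)) (hGx f (hMG hf)))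
  have h2 : Sn 1 a b = (a + b - 4).choose (a - 2) := by
    rw [Sn_eq _ _ _ ha, show min 1 (a - 1) = 1 by omega]
    simp
  rw [h2] at h1
  refine le_trans ?_ h1
  have hgood : ∀ i, x ∈ A i ∩ B i → A i ∩ B i ∈ G ∧ Good G 1 (A i ∪ B i) := by
    intro i hi
    have h3 : A i ∩ B i ∈ G := mem_image.2 ⟨i, mem_filter.2 ⟨mem_univ _, hi⟩, rfl⟩
    refine ⟨h3, {A i ∩ B i}, ?_, ?_, card_singleton _, ?_⟩
    · rw [singleton_subset_iff]
      exact h3
    · intro e he f hf hef
      rw [mem_singleton] at he hf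
      exact absurd (he.trans hf.symm) hef
    · have h4 : (({A i ∩ B i} : Finset (Finset α)).biUnion id) \ (A i ∪ B i) = ∅ := by
        rw [singleton_biUnion, sdiff_eq_empty_iff_subset]
        exact inter_subset_left.trans subset_union_left
      rw [h4, card_empty]
      exact Nat.zero_le _
  exact Nat.card_le_card_of_injective (fun i : {i : ι // x ∈ A i ∩ B i} =>
    (⟨i.1, hgood i.1 i.2⟩ : {i : ι // A i ∩ B i ∈ G ∧ Good G 1 (A i ∪ B i)}))
    (fun i j hij => Subtype.ext (congrArg (fun z => z.1) hij))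

/-- Let `2 ≤ a ≤ b` and let `(A i, B i)` be an `(a,b)`-system of finite sets of elements of any
type, indexed by a finite type `ι`.
* Let `G` be a set of intersections `A k ∩ B k`, `X` the union of the sets in `G`, and let `ν` be
  such that `G` has no more than `ν` pairwise disjoint sets. The number of the members `i` with
  `A i ∩ B i ∈ G` for which there are `ν` pairwise disjoint sets in `G` with union `V` and
  `|V \ (A i ∪ B i)| ≤ |(A i ∪ B i) \ X|`, is at most the sum of the first `ν` terms of `S(a,b)`.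
* If every member has this property for `G` the set of all the intersections (and `ν` the maximum
  number of pairwise disjoint ones), then `|ι| ≤ S(a,b)`.
* Special case: if the union of all the intersections has at most `a + b - 2` points, then
  `|ι| ≤ S(a,b)`.
* Special case: every point is in at most `C(a+b-4, a-2)` of the intersections `A i ∩ B i`. -/
theorem result (a b : ℕ) (ha : 2 ≤ a) (hab : a ≤ b) {ι α : Type*} [Fintype ι] [DecidableEq α]
    (A B : ι → Finset α) (h : IsSystem a b A B) :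
    (∀ (G : Finset (Finset α)) (ν : ℕ), (∀ e ∈ G, ∃ k, e = A k ∩ B k) →
      (∀ M ⊆ G, PD M → M.card ≤ ν) →
      Nat.card {i : ι // A i ∩ B i ∈ G ∧ Good G ν (A i ∪ B i)} ≤ Sn ν a b) ∧
    (∀ ν : ℕ, (∀ M ⊆ cores A B, PD M → M.card ≤ ν) →
      (∀ i, Good (cores A B) ν (A i ∪ B i)) → Fintype.card ι ≤ S a b) ∧
    ((core A B).card ≤ a + b - 2 → Fintype.card ι ≤ S a b) ∧
    (∀ x : α, Nat.card {i : ι // x ∈ A i ∩ B i} ≤ (a + b - 4).choose (a - 2)) :=
  ⟨fun G ν hG hν => count a b ha hab A B h G ν hG hν,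
    fun ν hν hall => whole a b ha hab A B h ν hν hall,
    small a b ha hab A B h, degree a b ha hab A B h⟩

end Pool.Agent.Results.MP_20855c_co.Matching
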