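import Pool.Agent.Lib.MP_20855c_co.Star.Main

/-!
Two families with intersections of size two: the conjectured bound holds if all the differences
`A i \ B i` lie in one set `Y` of `a + b - 2` points (the sets `B i` are arbitrary), provided the
intersections `A k ∩ B k` inside `Y` contain `a - 1` pairwise disjoint ones, or no intersection lies
inside `Y`.
-/

set_option autoImplicit false

namespace Pool.Agent.Results.MP_20855c_co.Star

open Finset Pool.Agent.Lib.MP_20855c_co Pool.Agent.Lib.MP_20855c_co.Star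

/-- An `(a,b)`-system: `|A i| = a`, `|B i| = b`, `|A i ∩ B i| = 2`, and `A i ∩ B j` is not contained
in any `A k ∩ B k` when `i ≠ j`. -/
structure IsSystem {ι α : Type*} [DecidableEq α] (a b : ℕ) (A B : ι → Finset α) : Prop where
  card_left : ∀ i, (A i).card = a
  card_right : ∀ i, (B i).card = b
  card_inter : ∀ i, (A i ∩ B i).card = 2
  not_subset : ∀ i j k, i ≠ j → ¬ A i ∩ B j ⊆ A k ∩ B k

/-- `S(a,b) = ∑_{i=2}^{a} 2^(i-2) * C(a+b-2i, a-i)`. -/
def S (a b : ℕ) : ℕ := ∑ i ∈ Icc 2 a, 2 ^ (i - 2) * (a + b - 2 * i).choose (a - i)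

lemma T_eq : ∀ m b : ℕ, m + 2 ≤ b →
    T (m + b) m = ∑ j ∈ range (m + 1), 2 ^ j * (m + b - 2 - 2 * j).choose (m - j) := by
  intro m
  induction m with
  | zero =>
    intro b hb
    obtain ⟨c, rfl⟩ : ∃ c, b = c + 2 := ⟨b - 2, by omega⟩
    rw [show 0 + (c + 2) = c + 2 by ring, T]
    simp
  | succ m ih =>
    intro b hb
    obtain ⟨c, rfl⟩ : ∃ c, b = c + 1 := ⟨b - 1, by omega⟩
    rw [show m + 1 + (c + 1) = (m + c) + 2 by ring, T, ih c (by omega), mul_sum,
      sum_range_succ' _ (m + 1)]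
    have h1 : ∀ j ∈ range (m + 1), 2 * (2 ^ j * (m + c - 2 - 2 * j).choose (m - j)) =
        2 ^ (j + 1) * (m + c + 2 - 2 - 2 * (j + 1)).choose (m + 1 - (j + 1)) := by
      intro j hj
      rw [mem_range] at hj
      rw [show m + c + 2 - 2 - 2 * (j + 1) = m + c - 2 - 2 * j by omega,
        show m + 1 - (j + 1) = m - j by omega, pow_succ]
      ring
    rw [sum_congr rfl h1, add_comm]
    simp

lemma T_eq_S {a b : ℕ} (ha : 2 ≤ a) (hab : a ≤ b) : T (a - 2 + b) (a - 2) = S a b := by
  obtain ⟨m, rfl⟩ : ∃ m, a = m + 2 := ⟨a - 2, by omega⟩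
  rw [show m + 2 - 2 = m by omega, T_eq m b (by omega), S]
  have h : Icc 2 (m + 2) = (range (m + 1)).image (fun j => j + 2) := by
    ext i
    simp only [mem_Icc, mem_image, mem_range]
    constructor
    · rintro ⟨h1, h2⟩
      exact ⟨i - 2, by omega, by omega⟩
    · rintro ⟨j, h1, rfl⟩
      omega
  rw [h, sum_image (by intro i _ j _ hij; simpa using hij)]
  apply sum_congr rfl
  intro j hj
  rw [mem_range] at hj
  rw [show j + 2 - 2 = j by omega, show m + 2 + b - 2 * (j + 2) = m + b - 2 - 2 * j by omega,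
    show m + 2 - (j + 2) = m - j by omega]

/-- Let `2 ≤ a ≤ b` and let `(A i, B i)` be an `(a,b)`-system of finite sets of elements of any
type, indexed by a finite type `ι`. Let `Y` be a set of `a + b - 2` points which contains all the
differences `A i \ B i`. Assume that no intersection `A i ∩ B i` is contained in `Y`, or that there
are `a - 1` members whose intersections `A i ∩ B i` are contained in `Y` and pairwise disjoint. Then
`|ι| ≤ S(a,b)`. -/
theorem result (a b : ℕ) (ha : 2 ≤ a) (hab : a ≤ b) {ι α : Type*} [Fintype ι] [DecidableEq α]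
    (A B : ι → Finset α) (h : IsSystem a b A B)
    (Y : Finset α) (hY : Y.card = a + b - 2) (hD : ∀ i, A i \ B i ⊆ Y)
    (hG : (∀ i, ¬ A i ∩ B i ⊆ Y) ∨
      ∃ J : Finset ι, J.card = a - 1 ∧ (∀ i ∈ J, A i ∩ B i ⊆ Y) ∧
        ∀ i ∈ J, ∀ j ∈ J, i ≠ j → Disjoint (A i ∩ B i) (A j ∩ B j)) :
    Fintype.card ι ≤ S a b := by
  classical
  rw [← T_eq_S ha hab]
  obtain ⟨k, rfl⟩ : ∃ k, a = k + 2 := ⟨a - 2, by omega⟩
  rw [show k + 2 - 2 = k by omega]
  have hYc : Y.card = k + b := by omega
  have key : ∀ M : Finset (Finset α), IsMatching M → (∀ e ∈ M, e ⊆ Y) → k + 1 ≤ M.card →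
      ((∀ e ∈ M, ∃ s, e = A s ∩ B s) ∨ (∀ i, ¬ A i ∩ B i ⊆ Y)) →
      Fintype.card ι ≤ T (k + b) k := fun M hM hMY hMk hMc =>
    star_main k b A B h.card_left h.card_right h.card_inter h.not_subset Y hYc hD M hM hMY hMk hMc
  rcases hG with hG | ⟨J, hJ, hJY, hJd⟩
  · obtain ⟨M, hM, hMY, hMk⟩ := exists_matching Y (k + 1) (by omega)
    exact key M hM hMY hMk.ge (Or.inr hG)
  · have hinj : Set.InjOn (fun i => A i ∩ B i) (J : Set ι) := by
      intro i hi j hj hij
      by_contra hne
      have h1 := hJd i hi j hj hne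
      have h2 : A i ∩ B i = A j ∩ B j := hij
      rw [h2, disjoint_self] at h1
      have h3 := h.card_inter j
      rw [h1] at h3
      simp at h3
    apply key (J.image fun i => A i ∩ B i)
    · refine ⟨?_, ?_⟩
      · intro e he
        obtain ⟨i, _, rfl⟩ := mem_image.1 he
        exact h.card_inter i
      · intro e he f hf hef
        obtain ⟨i, hi, rfl⟩ := mem_image.1 he
        obtain ⟨j, hj, rfl⟩ := mem_image.1 hf
        exact hJd i hi j hj (fun hij => hef (by rw [hij]))
    · intro e he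
      obtain ⟨i, hi, rfl⟩ := mem_image.1 he
      exact hJY i hi
    · rw [card_image_of_injOn hinj, hJ]
      omega
    · left
      intro e he
      obtain ⟨i, _, rfl⟩ := mem_image.1 he
      exact ⟨i, rfl⟩

end Pool.Agent.Results.MP_20855c_co.Star
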